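import Pool.Agent.MCD.D2.D
import Pool.Agent.MCA.PKU
/-!
Cell D2. The matrices.
-/
set_option deprecated.oldSectionVars true
set_option autoImplicit false

namespace Pool.Agent.MCD.D2
open Pool.Agent.MSQ Pool.Agent.MTR Pool.Agent.PKD Pool.Agent.MCA

theorem dC0_0_ok : rgOK rC0 dC0_0 RC0 = true := by decide +kernel

theorem dC0_1_ok : rgOK rC0 dC0_1 RC0 = true := by decide +kernel

theorem RC0_ok : eqPL (MCA.rA (81 * 177147) 4782969 gC0 lC0) (RC0.map (unpf dC0_0.K dC0_0.h)) = true := by decide +kernel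

theorem dS0_0_ok : rgOK rS0 dS0_0 RS0 = true := by decide +kernel

theorem dS0_1_ok : rgOK rS0 dS0_1 RS0 = true := by decide +kernel

theorem dS0_2_ok : rgOK rS0 dS0_2 RS0 = true := by decide +kernel

theorem dS0_3_ok : rgOK rS0 dS0_3 RS0 = true := by decide +kernel

theorem RS0_ok : eqPL (MCA.rA (81 * 177147) 4782969 gS0 lS0) (RS0.map (unpf dS0_0.K dS0_0.h)) = true := by decide +kernel

theorem dG0_0_ok : rgOK rG0 dG0_0 RG0 = true := by decide +kernel

theorem RG0_ok : eqPL (eGA 4782969 gC0 gS0 wG0) (RG0.map (unpf dG0_0.K dG0_0.h)) = true := by decide +kernel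

theorem dX0_0_ok : rgOK rX0 dX0_0 RX0 = true := by decide +kernel

theorem RX0_ok : eqPL (eX 4782969 81 gC0 F1 wX0 vX0) (RX0.map (unpf dX0_0.K dX0_0.h)) = true := by decide +kernel

theorem dY0_0_ok : rgOK rY0 dY0_0 RY0 = true := by decide +kernel

theorem RY0_ok : eqPL ((eC 4782969 81 gS0 F2 wY0 vY0).map M2) (RY0.map (unpf dY0_0.K dY0_0.h)) = true := by decide +kernel

theorem dC1_0_ok : rgOK rC1 dC1_0 RC1 = true := by decide +kernel

theorem dC1_1_ok : rgOK rC1 dC1_1 RC1 = true := by decide +kernel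

theorem dC1_2_ok : rgOK rC1 dC1_2 RC1 = true := by decide +kernel

theorem RC1_ok : eqPL (MCA.rA (81 * 177147) 4782969 gC1 lC1) (RC1.map (unpf dC1_0.K dC1_0.h)) = true := by decide +kernel

theorem dS1_0_ok : rgOK rS1 dS1_0 RS1 = true := by decide +kernel

theorem dS1_1_ok : rgOK rS1 dS1_1 RS1 = true := by decide +kernel

theorem dS1_2_ok : rgOK rS1 dS1_2 RS1 = true := by decide +kernel

theorem dS1_3_ok : rgOK rS1 dS1_3 RS1 = true := by decide +kernel

theorem dS1_4_ok : rgOK rS1 dS1_4 RS1 = true := by decide +kernel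

theorem RS1_ok : eqPL (MCA.rA (81 * 177147) 4782969 gS1 lS1) (RS1.map (unpf dS1_0.K dS1_0.h)) = true := by decide +kernel

theorem dG1_0_ok : rgOK rG1 dG1_0 RG1 = true := by decide +kernel

theorem RG1_ok : eqPL (eGA 4782969 gC1 gS1 wG1) (RG1.map (unpf dG1_0.K dG1_0.h)) = true := by decide +kernel

theorem dX1_0_ok : rgOK rX1 dX1_0 RX1 = true := by decide +kernel

theorem RX1_ok : eqPL (eX 4782969 81 gC1 F2 wX1 vX1) (RX1.map (unpf dX1_0.K dX1_0.h)) = true := by decide +kernel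

theorem dY1_0_ok : rgOK rY1 dY1_0 RY1 = true := by decide +kernel

theorem RY1_ok : eqPL ((eC 4782969 81 gS1 F2 wY1 vY1).map M2) (RY1.map (unpf dY1_0.K dY1_0.h)) = true := by decide +kernel

end Pool.Agent.MCD.D2
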